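import Pool.Agent.X220.LP.Basic

/-!
# The third element of a Leonard triple and the equitable presentation of `U_q(sl_2)`

The question is whether for a Leonard pair `A`, `A*` on an irreducible `U_q(sl_2)`-module `V`, where `A` is a
linear combination of `I, X, Y, X Y` and `A*` one of `I, Y, Z, Y Z`, the third element `A^ε` of every Leonard
triple `A, A*, A^ε`, or its image `A^ε†` under the antiautomorphism fixing `A` and `A*`, is a linear
combination of `I, Z, X, Z X`.

The answer is no.  Over the rational numbers, with `q = 2` and `dim V = 3`, put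
`A = (4 / 15) (X - Y + 2 (X Y - I))`, `A* = (8 / 3) (Z - Y + 2 (Y Z - I))`.  These are, up to the factor `10` for
`A*`, two elements of the image of `sl_2` in its three-dimensional representation, and
`A^ε = 25 A + 2 A*` completes them to a Leonard triple.  It is fixed by `†`, and it is not in the span of
`I, Z, X, Z X`.
-/

set_option autoImplicit false

namespace Pool.Agent.Results.MP_a7ee28_al.ThirdElement

open Pool.Agent.X220.LP

section defs

variable {K : Type} [Field K] {V : Type} [AddCommGroup V] [Module K V]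

/-- Leonard triples on a space of dimension `d + 1`. -/
def LeonardTriple (d : ℕ) (A B E : Module.End K V) : Prop :=
  (∃ v : Module.Basis (Fin (d + 1)) K V, (LinearMap.toMatrix v v A).IsDiag ∧
    IrredTridiagonal (LinearMap.toMatrix v v B) ∧ IrredTridiagonal (LinearMap.toMatrix v v E)) ∧
  (∃ v : Module.Basis (Fin (d + 1)) K V, (LinearMap.toMatrix v v B).IsDiag ∧
    IrredTridiagonal (LinearMap.toMatrix v v A) ∧ IrredTridiagonal (LinearMap.toMatrix v v E)) ∧
  (∃ v : Module.Basis (Fin (d + 1)) K V, (LinearMap.toMatrix v v E).IsDiag ∧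
    IrredTridiagonal (LinearMap.toMatrix v v A) ∧ IrredTridiagonal (LinearMap.toMatrix v v B))

/-- `q ^ 2 + q ^ (- 2) + 1` is the common value of the ratios
`(θ_{i - 2} - θ_{i + 1}) / (θ_{i - 1} - θ_i)`, `2 ≤ i ≤ d - 1`, where the `θ_i` are the diagonal entries of `A`
in a basis in which `A` is diagonal and `B` is irreducible tridiagonal. -/
def RatioCondition (d : ℕ) (q : K) (A B : Module.End K V) : Prop :=
  ∀ v : Module.Basis (Fin (d + 1)) K V, (LinearMap.toMatrix v v A).IsDiag →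
    IrredTridiagonal (LinearMap.toMatrix v v B) →
    ∀ i j k l : Fin (d + 1), (j : ℕ) = i + 1 → (k : ℕ) = i + 2 → (l : ℕ) = i + 3 →
      LinearMap.toMatrix v v A i i - LinearMap.toMatrix v v A l l =
        (q ^ 2 + q⁻¹ ^ 2 + 1) * (LinearMap.toMatrix v v A j j - LinearMap.toMatrix v v A k k)

/-- `σ` is an antiautomorphism of `End(V)` that fixes `A` and `B`. -/
def IsDagger (A B : Module.End K V) (σ : Module.End K V ≃ₐ[K] (Module.End K V)ᵐᵒᵖ) : Prop :=
  (σ A).unop = A ∧ (σ B).unop = B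

end defs

/-- The question: for all fields `K`, all spaces `V` of dimension `d + 1` with an irreducible
`U_q(sl_2)`-module structure `ρ`, `q` not a root of unity, and all Leonard triples `A`, `B`, `E` on `V`, with
`A` in the span of `I, X, Y, X Y` and `B` in the span of `I, Y, Z, Y Z`, such that the condition on the
ratios holds: `E` is in the span of `I, Z, X, Z X`, or `E†` is, where `†` is the antiautomorphism fixing `A`
and `B`. -/
def Question : Prop :=
  ∀ (K : Type) [Field K] (V : Type) [AddCommGroup V] [Module K V] (d : ℕ) (A B E : Module.End K V)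
    (q : K) (ρ : Uq K q →ₐ[K] Module.End K V),
    Module.finrank K V = d + 1 → q ≠ 0 → (∀ n : ℕ, 0 < n → q ^ n ≠ 1) →
    LeonardPair d A B → RatioCondition d q A B → IsIrreducible ρ →
    A ∈ Submodule.span K {1, ρ (gen K q Gen.X), ρ (gen K q Gen.Y),
      ρ (gen K q Gen.X) * ρ (gen K q Gen.Y)} →
    B ∈ Submodule.span K {1, ρ (gen K q Gen.Y), ρ (gen K q Gen.Z),
      ρ (gen K q Gen.Y) * ρ (gen K q Gen.Z)} →
    LeonardTriple d A B E →
    E ∈ Submodule.span K {1, ρ (gen K q Gen.Z), ρ (gen K q Gen.X),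
      ρ (gen K q Gen.Z) * ρ (gen K q Gen.X)} ∨
    ∃ σ : Module.End K V ≃ₐ[K] (Module.End K V)ᵐᵒᵖ, IsDagger A B σ ∧
      (σ E).unop ∈ Submodule.span K {1, ρ (gen K q Gen.Z), ρ (gen K q Gen.X),
        ρ (gen K q Gen.Z) * ρ (gen K q Gen.X)}

/-! ### The matrices -/

/-- 3 × 3 rational matrices -/
abbrev M3 : Type := Matrix (Fin 3) (Fin 3) ℚ

def mX : M3 := !![1/4, 5/2, 0; 0, 1, 5/2; 0, 0, 4]
def mXi : M3 := !![4, -10, 25/4; 0, 1, -5/8; 0, 0, 1/4]
def mY : M3 := !![4, 0, 0; 0, 1, 0; 0, 0, 1/4]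
def mZ : M3 := !![1/4, 0, 0; -9/8, 1, 0; 0, -9/2, 4]
def mA : M3 := !![-1, 2, 0; 0, 0, 1; 0, 0, 1]
def mB : M3 := !![-10, 0, 0; -9, 0, 0; 0, -18, 10]
def mE : M3 := !![-45, 50, 0; -18, 0, 25; 0, -36, 45]

/-- the map of a matrix -/
noncomputable abbrev φ : M3 ≃ₐ[ℚ] Module.End ℚ (Fin 3 → ℚ) := Matrix.toLinAlgEquiv'

/-- the generators -/
def mat : Gen → M3
  | Gen.X => mX
  | Gen.Xinv => mXi
  | Gen.Y => mY
  | Gen.Z => mZ

theorem relXXi : mX * mXi = 1 := by decide +kernel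

theorem relXiX : mXi * mX = 1 := by decide +kernel

theorem relXY : (2 : ℚ) • (mX * mY) - (2 : ℚ)⁻¹ • (mY * mX) = ((2 : ℚ) - 2⁻¹) • (1 : M3) := by decide +kernel

theorem relYZ : (2 : ℚ) • (mY * mZ) - (2 : ℚ)⁻¹ • (mZ * mY) = ((2 : ℚ) - 2⁻¹) • (1 : M3) := by decide +kernel

theorem relZX : (2 : ℚ) • (mZ * mX) - (2 : ℚ)⁻¹ • (mX * mZ) = ((2 : ℚ) - 2⁻¹) • (1 : M3) := by decide +kernel

/-- the module structure, `q = 2` -/
noncomputable def rho : Uq ℚ 2 →ₐ[ℚ] Module.End ℚ (Fin 3 → ℚ) :=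
  φ.toAlgHom.comp (RingQuot.liftAlgHom ℚ ⟨FreeAlgebra.lift ℚ mat, by
    intro x y h
    induction h with
    | inv₁ => simpa [mat] using relXXi
    | inv₂ => simpa [mat] using relXiX
    | XY => simpa [mat] using relXY
    | YZ => simpa [mat] using relYZ
    | ZX => simpa [mat] using relZX⟩)

theorem rho_gen (g : Gen) : rho (gen ℚ 2 g) = φ (mat g) := by
  unfold rho gen
  show φ _ = φ _
  congr 1
  exact (RingQuot.liftAlgHom_mkAlgHom_apply _ _ _ _).trans (FreeAlgebra.lift_ι_apply _ _)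

/-! ### The bases -/

theorem pA1 : (!![1, 2, 1; 0, 1, 1; 0, 0, 1] : M3) * !![1, -2, 1; 0, 1, -1; 0, 0, 1] = 1 := by decide +kernel

theorem pA2 : (!![1, -2, 1; 0, 1, -1; 0, 0, 1] : M3) * !![1, 2, 1; 0, 1, 1; 0, 0, 1] = 1 := by decide +kernel

theorem pB1 : (!![100, 0, 0; 90, 5, 0; 81, 9, 1] : M3) *
    !![1/100, 0, 0; -9/50, 1/5, 0; 81/100, -9/5, 1] = 1 := by decide +kernel

theorem pB2 : (!![1/100, 0, 0; -9/50, 1/5, 0; 81/100, -9/5, 1] : M3) *
    !![100, 0, 0; 90, 5, 0; 81, 9, 1] = 1 := by decide +kernel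

theorem pE1 : (!![25, 50, 25; 15, 45, 30; 9, 36, 36] : M3) *
    !![4/25, -4/15, 1/9; -2/25, 1/5, -1/9; 1/25, -2/15, 1/9] = 1 := by decide +kernel

theorem pE2 : (!![4/25, -4/15, 1/9; -2/25, 1/5, -1/9; 1/25, -2/15, 1/9] : M3) *
    !![25, 50, 25; 15, 45, 30; 9, 36, 36] = 1 := by decide +kernel

/-- diagonal matrices of order three -/
theorem diag3 {M : M3} (h : M 0 1 = 0 ∧ M 0 2 = 0 ∧ M 1 0 = 0 ∧ M 1 2 = 0 ∧ M 2 0 = 0 ∧ M 2 1 = 0) :
    M.IsDiag := by
  intro i j hij
  obtain ⟨h1, h2, h3, h4, h5, h6⟩ := h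
  fin_cases i <;> fin_cases j <;> first | exact absurd rfl hij | assumption

/-- irreducible tridiagonal matrices of order three -/
theorem tri3 {M : M3} (h : M 0 2 = 0 ∧ M 2 0 = 0 ∧ M 0 1 ≠ 0 ∧ M 1 0 ≠ 0 ∧ M 1 2 ≠ 0 ∧ M 2 1 ≠ 0) :
    IrredTridiagonal M := by
  obtain ⟨h1, h2, h3, h4, h5, h6⟩ := h
  constructor
  · intro i j hij
    fin_cases i <;> fin_cases j <;> first | assumption | (exfalso; simp at hij)
  · intro i j hij
    fin_cases i <;> fin_cases j <;> first | assumption | (exfalso; simp at hij)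

theorem triple : LeonardTriple 2 (φ mA) (φ mB) (φ mE) := by
  refine ⟨⟨colBasis _ _ pA1 pA2, ?_, ?_, ?_⟩, ⟨colBasis _ _ pB1 pB2, ?_, ?_, ?_⟩,
    ⟨colBasis _ _ pE1 pE2, ?_, ?_, ?_⟩⟩
  · refine (congrArg Matrix.IsDiag (toMatrix_colBasis _ _ _ _ mA)).mpr (diag3 ?_)
    decide +kernel
  · refine (congrArg IrredTridiagonal (toMatrix_colBasis _ _ _ _ mB)).mpr (tri3 ?_)
    decide +kernel
  · refine (congrArg IrredTridiagonal (toMatrix_colBasis _ _ _ _ mE)).mpr (tri3 ?_)
    decide +kernel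
  · refine (congrArg Matrix.IsDiag (toMatrix_colBasis _ _ _ _ mB)).mpr (diag3 ?_)
    decide +kernel
  · refine (congrArg IrredTridiagonal (toMatrix_colBasis _ _ _ _ mA)).mpr (tri3 ?_)
    decide +kernel
  · refine (congrArg IrredTridiagonal (toMatrix_colBasis _ _ _ _ mE)).mpr (tri3 ?_)
    decide +kernel
  · refine (congrArg Matrix.IsDiag (toMatrix_colBasis _ _ _ _ mE)).mpr (diag3 ?_)
    decide +kernel
  · refine (congrArg IrredTridiagonal (toMatrix_colBasis _ _ _ _ mA)).mpr (tri3 ?_)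
    decide +kernel
  · refine (congrArg IrredTridiagonal (toMatrix_colBasis _ _ _ _ mB)).mpr (tri3 ?_)
    decide +kernel

theorem pair : LeonardPair 2 (φ mA) (φ mB) := by
  obtain ⟨⟨v, h1, h2, -⟩, ⟨w, h3, h4, -⟩, -⟩ := triple
  exact ⟨⟨v, h1, h2⟩, ⟨w, h3, h4⟩⟩

theorem A_eq : mA = (-8/15 : ℚ) • (1 : M3) + (4/15 : ℚ) • mX + (-4/15 : ℚ) • mY +
    (8/15 : ℚ) • (mX * mY) := by decide +kernel

theorem B_eq : mB = (-16/3 : ℚ) • (1 : M3) + (-8/3 : ℚ) • mY + (8/3 : ℚ) • mZ +
    (16/3 : ℚ) • (mY * mZ) := by decide +kernel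

theorem E_eq : mE = (25 : ℚ) • mA + (2 : ℚ) • mB := by decide +kernel

theorem four_mem {V : Type} [AddCommGroup V] [Module ℚ V] (a b c d : V) (x : V) :
    x ∈ Submodule.span ℚ {a, b, c, d} ↔
      ∃ α β γ δ : ℚ, x = α • a + β • b + γ • c + δ • d := by
  rw [Submodule.mem_span_insert]
  constructor
  · rintro ⟨α, z, hz, rfl⟩
    rw [Submodule.mem_span_insert] at hz
    obtain ⟨β, z, hz, rfl⟩ := hz
    obtain ⟨γ, δ, rfl⟩ := Submodule.mem_span_pair.1 hz
    exact ⟨α, β, γ, δ, by abel⟩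
  · rintro ⟨α, β, γ, δ, rfl⟩
    refine ⟨α, β • b + γ • c + δ • d, ?_, by abel⟩
    rw [Submodule.mem_span_insert]
    exact ⟨β, γ • c + δ • d, Submodule.mem_span_pair.2 ⟨γ, δ, rfl⟩, by abel⟩

theorem not_mem : φ mE ∉ Submodule.span ℚ {1, rho (gen ℚ 2 Gen.Z), rho (gen ℚ 2 Gen.X),
    rho (gen ℚ 2 Gen.Z) * rho (gen ℚ 2 Gen.X)} := by
  rw [four_mem]
  rintro ⟨α, β, γ, δ, h⟩
  rw [rho_gen, rho_gen, ← map_mul, ← map_one φ, ← map_smul, ← map_smul, ← map_smul, ← map_smul,
    ← map_add, ← map_add, ← map_add] at h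
  have h1 := φ.injective h
  have hent : ∀ i j, mE i j = α * (1 : M3) i j + β * mZ i j + γ * mX i j + δ * (mZ * mX) i j :=
    fun i j => congrFun (congrFun h1 i) j
  have e01 := hent 0 1
  have e12 := hent 1 2
  have e10 := hent 1 0
  have e21 := hent 2 1
  rw [show mE 0 1 = 50 by decide +kernel, show (1 : M3) 0 1 = 0 by decide +kernel,
    show mZ 0 1 = 0 by decide +kernel, show mX 0 1 = 5/2 by decide +kernel,
    show (mZ * mX) 0 1 = 5/8 by decide +kernel] at e01
  rw [show mE 1 2 = 25 by decide +kernel, show (1 : M3) 1 2 = 0 by decide +kernel,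
    show mZ 1 2 = 0 by decide +kernel, show mX 1 2 = 5/2 by decide +kernel,
    show (mZ * mX) 1 2 = 5/2 by decide +kernel] at e12
  rw [show mE 1 0 = -18 by decide +kernel, show (1 : M3) 1 0 = 0 by decide +kernel,
    show mZ 1 0 = -9/8 by decide +kernel, show mX 1 0 = 0 by decide +kernel,
    show (mZ * mX) 1 0 = -9/32 by decide +kernel] at e10
  rw [show mE 2 1 = -36 by decide +kernel, show (1 : M3) 2 1 = 0 by decide +kernel,
    show mZ 2 1 = -9/2 by decide +kernel, show mX 2 1 = 0 by decide +kernel,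
    show (mZ * mX) 2 1 = -9/2 by decide +kernel] at e21
  linarith

/-- **The answer is no.** -/
theorem result : ¬ Question := by
  intro h
  have hX := rho_gen Gen.X
  have hY := rho_gen Gen.Y
  have hZ := rho_gen Gen.Z
  have hq : ∀ n : ℕ, 0 < n → (2 : ℚ) ^ n ≠ 1 := fun n hn => (one_lt_pow₀ one_lt_two hn.ne').ne'
  have key := h ℚ (Fin 3 → ℚ) 2 (φ mA) (φ mB) (φ mE) 2 rho (by simp) two_ne_zero hq pair ?_ ?_ ?_ ?_
    triple
  · rcases key with h1 | ⟨σ, ⟨hσA, hσB⟩, h1⟩
    · exact not_mem h1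
    · have e : (σ (φ mE)).unop = φ mE := by
        rw [E_eq, map_add, map_smul, map_smul, map_add, map_smul, map_smul, MulOpposite.unop_add,
          MulOpposite.unop_smul, MulOpposite.unop_smul, hσA, hσB]
      rw [e] at h1
      exact not_mem h1
  · intro v _ _ i j k l _ _ hl
    have := l.isLt
    omega
  · refine ⟨⟨0, Pi.single 0 1, ?_⟩, fun W hW => irreducible pair W ?_ ?_⟩
    · intro h0
      have := congrFun h0 0
      simp at this
    · have hX' := hW (gen ℚ 2 Gen.X)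
      have hY' := hW (gen ℚ 2 Gen.Y)
      rw [hX] at hX'
      rw [hY] at hY'
      intro w hw
      have e : φ mA w = (-8/15 : ℚ) • w + (4/15 : ℚ) • φ mX w + (-4/15 : ℚ) • φ mY w +
          (8/15 : ℚ) • φ mX (φ mY w) := by
        have := congrArg (fun M => φ M w) A_eq
        simpa only [map_add, map_smul, map_mul, map_one, LinearMap.add_apply, LinearMap.smul_apply,
          Module.End.mul_apply, Module.End.one_apply] using this
      rw [e]
      exact W.add_mem (W.add_mem (W.add_mem (W.smul_mem _ hw) (W.smul_mem _ (hX' w hw)))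
        (W.smul_mem _ (hY' w hw))) (W.smul_mem _ (hX' _ (hY' w hw)))
    · have hZ' := hW (gen ℚ 2 Gen.Z)
      have hY' := hW (gen ℚ 2 Gen.Y)
      rw [hZ] at hZ'
      rw [hY] at hY'
      intro w hw
      have e : φ mB w = (-16/3 : ℚ) • w + (-8/3 : ℚ) • φ mY w + (8/3 : ℚ) • φ mZ w +
          (16/3 : ℚ) • φ mY (φ mZ w) := by
        have := congrArg (fun M => φ M w) B_eq
        simpa only [map_add, map_smul, map_mul, map_one, LinearMap.add_apply, LinearMap.smul_apply,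
          Module.End.mul_apply, Module.End.one_apply] using this
      rw [e]
      exact W.add_mem (W.add_mem (W.add_mem (W.smul_mem _ hw) (W.smul_mem _ (hY' w hw)))
        (W.smul_mem _ (hZ' w hw))) (W.smul_mem _ (hY' _ (hZ' w hw)))
  · rw [four_mem, hX, hY]
    refine ⟨-8/15, 4/15, -4/15, 8/15, ?_⟩
    have := congrArg φ A_eq
    simpa only [map_add, map_smul, map_mul, map_one, mat] using this
  · rw [four_mem, hZ, hY]
    refine ⟨-16/3, -8/3, 8/3, 16/3, ?_⟩
    have := congrArg φ B_eq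
    simpa only [map_add, map_smul, map_mul, map_one, mat] using this

end Pool.Agent.Results.MP_a7ee28_al.ThirdElement
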